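import Mathlib
import Pool.Agent.V11311.RC.G

set_option autoImplicit false

/-!
The number of iterations of the first descent map needed to reach `1`.
-/

namespace Pool.Agent.Results.MP_f7abf1_nt.FirstDescentSteps

open Filter Topology

/-- the `3x+1` function -/
def T (n : ℕ) : ℕ := if n % 2 = 0 then n / 2 else (3 * n + 1) / 2

/-- `t` is the total stopping time of `n` -/
def TotalStoppingTime (n t : ℕ) : Prop := T^[t] n = 1 ∧ ∀ j < t, T^[j] n ≠ 1

/-- the stopping time of `n` is larger than `k` -/
def StopsAfter (k n : ℕ) : Prop := ∀ i, 1 ≤ i → i ≤ k → n ≤ T^[i] n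

/-- the first descent map: the first term of the trajectory of `n` which is smaller than `n` (and `n` itself
if there is none) -/
noncomputable def S (n : ℕ) : ℕ := T^[sInf {k : ℕ | 0 < k ∧ T^[k] n < n}] n

/-- `r` is the number of iterations of the first descent map which lead from `n` to `1` -/
def DescentSteps (n r : ℕ) : Prop := S^[r] n = 1 ∧ ∀ j < r, S^[j] n ≠ 1

/-- the set of the positive integers with the property `P` has the natural density `δ` -/
def HasDensity (P : ℕ → Prop) (δ : ℝ) : Prop :=
  Tendsto (fun N : ℕ => ({n : ℕ | 1 ≤ n ∧ n ≤ N ∧ P n}.ncard : ℝ) / N) atTop (𝓝 δ)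

open Pool.Agent.V11311.RC Pool.Agent.V11311.FP

theorem conv {P : ℕ → Prop} {δ : ℝ} (h : HasD P δ) : HasDensity P δ := by
  classical
  unfold HasDensity
  unfold HasD at h
  refine h.congr fun N => ?_
  congr 1
  unfold cN
  rw [← Set.ncard_coe_finset]
  congr 2
  ext n
  rw [Finset.mem_coe, Finset.mem_filter, Finset.mem_Icc]
  constructor
  · rintro ⟨⟨h1, h2⟩, h3⟩; exact ⟨h1, h2, h3⟩
  · rintro ⟨h1, h2, h3⟩; exact ⟨⟨h1, h2⟩, h3⟩

/-- **The number of first descent steps.** For every `k` the set of the positive integers whose stopping time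
is larger than `k` has a density `d k`, and the mean stopping time `∑ d k` is finite. Let `ρ` be its inverse.
The set of the positive integers which reach `1` has a density `δ > 0`, and `δ = 1` if and only if every
positive integer reaches `1`. For every `ε > 0`, the set of the positive integers `n` which reach `1`, whose
total stopping time `t` satisfies `|t - 2 / log (4/3) * log n| ≤ ε * log n`, and for which the number `r` of
iterations of the first descent map leading from `n` to `1` satisfies `|r - ρ * t| ≤ ε * t`, has the same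
density `δ`. So almost all of the integers which reach `1` need `(ρ + o(1)) t` descents. -/
theorem result : ∃ (d : ℕ → ℝ) (ρ δ : ℝ),
    (∀ k, HasDensity (StopsAfter k) (d k)) ∧ Summable d ∧ 0 < ρ ∧ ρ * ∑' k, d k = 1 ∧
    0 < δ ∧ δ ≤ 1 ∧ (δ = 1 ↔ ∀ n : ℕ, 1 ≤ n → ∃ t, TotalStoppingTime n t) ∧
    HasDensity (fun n => ∃ t, TotalStoppingTime n t) δ ∧
    ∀ ε : ℝ, 0 < ε → HasDensity (fun n => ∃ t r : ℕ, TotalStoppingTime n t ∧ DescentSteps n r ∧
      |(t : ℝ) - 2 / Real.log (4 / 3) * Real.log n| ≤ ε * Real.log n ∧ |(r : ℝ) - ρ * t| ≤ ε * t) δ := by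
  classical
  obtain ⟨ρ, hρ, -⟩ := rho_exists
  obtain ⟨δ, h0, h1, h2, h3, h4⟩ := nrm_dens
  have hmul := rho_mul hρ
  have hsum : 0 ≤ ∑' k, pr k (NC k) := tsum_nonneg fun k => pr_nonneg k _
  have hρ0 : 0 < ρ := by
    by_contra hcon
    rw [not_lt] at hcon
    have := mul_nonpos_of_nonpos_of_nonneg hcon hsum
    linarith
  refine ⟨fun k => pr k (NC k), ρ, δ, fun k => conv (stop_dens k), NC_summable, hρ0, hmul, h0, h1, ?_, ?_, ?_⟩
  · rw [h2]
    exact forall_congr' fun n => imp_congr_right fun _ => reach_iff n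
  · exact conv (HasD.congr h3 fun n _ => reach_iff n)
  · intro ε hε
    refine conv (HasD.congr (rec_law h3 h4 hρ ε hε) fun n hn => ?_)
    constructor
    · rintro ⟨t, ht, g1, g2⟩
      exact ⟨t, Rec n t, ht, steps_aux n hn t ht, g1, g2⟩
    · rintro ⟨t, r, ht, hr, g1, g2⟩
      refine ⟨t, ht, g1, ?_⟩
      obtain ⟨h5, h6⟩ := steps_aux n hn t ht
      have : r = Rec n t := by
        rcases lt_trichotomy r (Rec n t) with h | h | h
        · exact absurd hr.1 (h6 r h)
        · exact h
        · exact absurd h5 (hr.2 _ h)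
      rw [← this]
      exact g2

end Pool.Agent.Results.MP_f7abf1_nt.FirstDescentSteps
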