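import Mathlib
import Pool.Agent.V11311.ER.V6

set_option autoImplicit false

/-!
The largest increments of typical trajectories over windows of `(log n)^α` steps, with the sharp constant.
-/

namespace Pool.Agent.Results.MP_f7abf1_nt.Increments

open Filter Topology

/-- the `3x+1` function -/
def T (n : ℕ) : ℕ := if n % 2 = 0 then n / 2 else (3 * n + 1) / 2

/-- the positive integers with the property `P` have the natural density `δ` -/
def HasDensity (P : ℕ → Prop) (δ : ℝ) : Prop :=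
  Tendsto (fun N : ℕ => ({n : ℕ | 1 ≤ n ∧ n ≤ N ∧ P n}.ncard : ℝ) / N) atTop (𝓝 δ)

/-- `log T^w m - log m` minus its mean `-(w/2) log (4/3)` -/
noncomputable def dev (w m : ℕ) : ℝ :=
  Real.log (T^[w] m) - Real.log m + (w : ℝ) / 2 * Real.log (4 / 3)

/-- the size of the largest deviations over `w` steps along the trajectory of `n` -/
noncomputable def b (n w : ℕ) : ℝ :=
  Real.log 3 * Real.sqrt ((w : ℝ) / 2 * Real.log (Real.log n / w))

/-- the first `s + 1` terms of the trajectory of `n` are larger than `n ^ κ` -/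
def Above (κ : ℝ) (n s : ℕ) : Prop := ∀ j : ℕ, j ≤ s → (n : ℝ) ^ κ < T^[j] n

/-- the law of the largest increments, for windows of `w` steps -/
def Law (ε κ : ℝ) (n w : ℕ) : Prop :=
  (∀ s : ℕ, Above κ n (s + w) → |dev w (T^[s] n)| ≤ (1 + ε) * b n w) ∧
  (∃ s : ℕ, Above κ n (s + w) ∧ (1 - ε) * b n w ≤ dev w (T^[s] n)) ∧
  (∃ s : ℕ, Above κ n (s + w) ∧ dev w (T^[s] n) ≤ -((1 - ε) * b n w))

open Pool.Agent.V11311.RC Pool.Agent.V11311.FP Pool.Agent.V11311.ER

theorem conv {P : ℕ → Prop} {δ : ℝ} (h : HasD P δ) : HasDensity P δ := by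
  classical
  unfold HasDensity
  unfold HasD at h
  refine h.congr fun N => ?_
  congr 1
  unfold cN
  rw [← Set.ncard_coe_finset]
  congr 2
  ext n
  rw [Finset.mem_coe, Finset.mem_filter, Finset.mem_Icc]
  constructor
  · rintro ⟨⟨h1, h2⟩, h3⟩; exact ⟨h1, h2, h3⟩
  · rintro ⟨h1, h2, h3⟩; exact ⟨⟨h1, h2⟩, h3⟩

theorem T_eq : Pool.Agent.Helper894.Collatz.T = T := by
  funext n
  unfold Pool.Agent.Helper894.Collatz.T T
  rfl

theorem dev_eq {w m : ℕ} (hm : 0 < m) : Dw w m = dev w m := by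
  unfold Dw dev
  have h1 : (0 : ℝ) < m := by exact_mod_cast hm
  have h2 : (0 : ℝ) < (Pool.Agent.Helper894.Collatz.T^[w] m : ℕ) := by
    exact_mod_cast Pool.Agent.H377R2.iter_pos hm w
  rw [Real.log_div h2.ne' h1.ne', T_eq]

theorem b_eq (n w : ℕ) : bs n w = b n w := by
  unfold bs b
  rw [div_mul_eq_mul_div]

/-- **the largest increments of typical trajectories** -/
theorem result (α β ε κ : ℝ) (hα : 0 < α) (hαβ : α ≤ β) (hβ : β < 1) (hε : 0 < ε) (hε1 : ε < 1)
    (hκ : 0 < κ) (hκ1 : κ < 1) :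
    HasDensity (fun n => ∀ w : ℕ, Real.log n ^ α ≤ w → (w : ℝ) ≤ Real.log n ^ β → Law ε κ n w) 1 := by
  refine conv (HasD.congr (size_law hα hαβ hβ hε hε1 hκ hκ1) fun n hn => ?_)
  have hn0 : 0 < n := by omega
  have key : ∀ s w : ℕ, Dw w (T^[s] n) = dev w (T^[s] n) := by
    intro s w
    have := Pool.Agent.H377R2.iter_pos hn0 s
    rw [T_eq] at this
    exact dev_eq this
  unfold Law Above
  simp only [b_eq, T_eq, key]

end Pool.Agent.Results.MP_f7abf1_nt.Increments
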