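import Mathlib
import Pool.Agent.V11311.ER.K

set_option autoImplicit false

/-!
The longest stopping time of the terms of the trajectory of a typical integer.
-/

namespace Pool.Agent.Results.MP_f7abf1_nt.LongestStoppingTime

open Filter Topology

/-- the `3x+1` function -/
def T (n : ℕ) : ℕ := if n % 2 = 0 then n / 2 else (3 * n + 1) / 2

/-- the positive integers with the property `P` have the natural density `δ` -/
def HasDensity (P : ℕ → Prop) (δ : ℝ) : Prop :=
  Tendsto (fun N : ℕ => ({n : ℕ | 1 ≤ n ∧ n ≤ N ∧ P n}.ncard : ℝ) / N) atTop (𝓝 δ)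

/-- `log 2 - H(log 2 / log 3)`, where `H` is the binary entropy (natural logarithms) -/
noncomputable def β : ℝ := Real.log 2 - Real.binEntropy (Real.log 2 / Real.log 3)

/-- every term before the first term `≤ n ^ κ` of the trajectory of `n` has a stopping time `≤ u` -/
def StoppingTimesAtMost (κ u : ℝ) (n : ℕ) : Prop :=
  ∀ s, (∀ s', s' ≤ s → (n : ℝ) ^ κ < T^[s'] n) → ∃ i : ℕ, 1 ≤ i ∧ (i : ℝ) ≤ u ∧ T^[s + i] n < T^[s] n

/-- some term before the first term `≤ n ^ κ` of the trajectory of `n` has a stopping time `> u` -/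
def StoppingTimeMore (κ u : ℝ) (n : ℕ) : Prop :=
  ∃ s, (∀ s', s' ≤ s → (n : ℝ) ^ κ < T^[s'] n) ∧ ∀ i : ℕ, 1 ≤ i → (i : ℝ) ≤ u → T^[s] n ≤ T^[s + i] n

open Pool.Agent.V11311.RC Pool.Agent.V11311.FP Pool.Agent.V11311.ER

theorem conv {P : ℕ → Prop} {δ : ℝ} (h : HasD P δ) : HasDensity P δ := by
  classical
  unfold HasDensity
  unfold HasD at h
  refine h.congr fun N => ?_
  congr 1
  unfold cN
  rw [← Set.ncard_coe_finset]
  congr 2
  ext n
  rw [Finset.mem_coe, Finset.mem_filter, Finset.mem_Icc]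
  constructor
  · rintro ⟨⟨h1, h2⟩, h3⟩; exact ⟨h1, h2, h3⟩
  · rintro ⟨h1, h2, h3⟩; exact ⟨⟨h1, h2⟩, h3⟩

/-- **the longest stopping time is `(1/β + o(1)) log log n`** -/
theorem result : 0 < β ∧ ∀ κ ε : ℝ, 0 < κ → κ < 1 → 0 < ε → ε < 1 →
    HasDensity (fun n => StoppingTimesAtMost κ ((1 + ε) / β * Real.log (Real.log n)) n ∧
      StoppingTimeMore κ ((1 - ε) / β * Real.log (Real.log n)) n) 1 :=
  ⟨rt_pos, fun _ _ hκ hκ1 hε hε1 => conv (stop_law hε hε1 hκ hκ1)⟩

end Pool.Agent.Results.MP_f7abf1_nt.LongestStoppingTime
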